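import Pool.Agent.Helper95.WS.LogD

/-!
# Small power series and quotients of characteristic polynomials (project WS, 8d)
-/

open Finset

namespace Pool.Agent.Helper9.WS

section

open scoped Polynomial

variable {L : Type} [Field L] (O : ValuationSubring L)

/-! ### small series -/

/-- the coefficients of the positive degrees up to `N` are small -/
private def Sm (ρ : L) (N : ℕ) (f : PowerSeries L) : Prop :=
  PowerSeries.coeff 0 f = 1 ∧ ∀ j, 0 < j → j ≤ N → O.valuation (PowerSeries.coeff j f) < O.valuation ρ ^ j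

variable {O} {ρ : L} {N : ℕ}

private theorem Sm.le {f : PowerSeries L} (h : Sm O ρ N f) {j : ℕ} (hj : j ≤ N) :
    O.valuation (PowerSeries.coeff j f) ≤ O.valuation ρ ^ j := by
  rcases Nat.eq_zero_or_pos j with h0 | h0
  · subst h0
    rw [h.1, map_one, pow_zero]
  · exact (h.2 j h0 hj).le

private theorem val_pow_pos (hρ0 : ρ ≠ 0) (j : ℕ) : 0 < O.valuation ρ ^ j :=
  pow_pos (zero_lt_iff.2 ((Valuation.ne_zero_iff _).2 hρ0)) j

private theorem Sm.one (hρ0 : ρ ≠ 0) : Sm O ρ N 1 := by
  refine ⟨by simp, fun j hj _ => ?_⟩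
  rw [PowerSeries.coeff_one, if_neg hj.ne', map_zero]
  exact val_pow_pos hρ0 j

private theorem coeff_zero_mul' (f g : PowerSeries L) : PowerSeries.coeff 0 (f * g) =
    PowerSeries.coeff 0 f * PowerSeries.coeff 0 g := by
  rw [PowerSeries.coeff_zero_eq_constantCoeff_apply, PowerSeries.coeff_zero_eq_constantCoeff_apply,
    PowerSeries.coeff_zero_eq_constantCoeff_apply, map_mul]

private theorem Sm.mul (hρ0 : ρ ≠ 0) {f g : PowerSeries L} (hf : Sm O ρ N f) (hg : Sm O ρ N g) : Sm O ρ N (f * g) := by
  refine ⟨?_, fun j hj hjN => ?_⟩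
  · rw [coeff_zero_mul', hf.1, hg.1, one_mul]
  · rw [PowerSeries.coeff_mul]
    refine Valuation.map_sum_lt _ (val_pow_pos hρ0 j).ne' fun p hp => ?_
    rw [Finset.HasAntidiagonal.mem_antidiagonal] at hp
    rw [map_mul, ← hp, pow_add]
    rcases Nat.eq_zero_or_pos p.1 with h0 | h0
    · rw [h0, hf.1, map_one, one_mul, pow_zero, one_mul]
      exact hg.2 _ (by omega) (by omega)
    · calc O.valuation (PowerSeries.coeff p.1 f) * O.valuation (PowerSeries.coeff p.2 g) ≤
            O.valuation (PowerSeries.coeff p.1 f) * O.valuation ρ ^ p.2 := by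
            gcongr
            exact hg.le (by omega)
        _ < O.valuation ρ ^ p.1 * O.valuation ρ ^ p.2 :=
            mul_lt_mul_of_pos_right (hf.2 _ h0 (by omega)) (val_pow_pos hρ0 _)

private theorem Sm.inv (hρ0 : ρ ≠ 0) {f g : PowerSeries L} (hf : Sm O ρ N f) (hfg : f * g = 1) : Sm O ρ N g := by
  have h0 : PowerSeries.coeff 0 g = 1 := by
    have := congrArg (PowerSeries.coeff 0) hfg
    rw [coeff_zero_mul', hf.1, one_mul, PowerSeries.coeff_zero_one] at this
    exact this
  refine ⟨h0, ?_⟩
  intro j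
  induction j using Nat.strong_induction_on with
  | _ j ih =>
    intro hj hjN
    have h1 := congrArg (PowerSeries.coeff j) hfg
    rw [PowerSeries.coeff_mul, PowerSeries.coeff_one, if_neg hj.ne',
      Finset.Nat.sum_antidiagonal_eq_sum_range_succ (fun a b => PowerSeries.coeff a f * PowerSeries.coeff b g),
      Finset.sum_range_succ', hf.1, one_mul, Nat.sub_zero] at h1
    have h2 : PowerSeries.coeff j g = - ∑ k ∈ range j, PowerSeries.coeff (k + 1) f * PowerSeries.coeff (j - (k + 1)) g := by
      rw [eq_neg_iff_add_eq_zero, add_comm]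
      exact h1
    rw [h2, Valuation.map_neg]
    refine Valuation.map_sum_lt _ (val_pow_pos hρ0 j).ne' fun k hk => ?_
    rw [mem_range] at hk
    have hle : O.valuation (PowerSeries.coeff (j - (k + 1)) g) ≤ O.valuation ρ ^ (j - (k + 1)) := by
      rcases Nat.eq_zero_or_pos (j - (k + 1)) with h3 | h3
      · rw [h3, h0, map_one, pow_zero]
      · exact (ih _ (by omega) h3 (by omega)).le
    rw [map_mul]
    calc O.valuation (PowerSeries.coeff (k + 1) f) * O.valuation (PowerSeries.coeff (j - (k + 1)) g) ≤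
          O.valuation (PowerSeries.coeff (k + 1) f) * O.valuation ρ ^ (j - (k + 1)) := by gcongr
      _ < O.valuation ρ ^ (k + 1) * O.valuation ρ ^ (j - (k + 1)) :=
          mul_lt_mul_of_pos_right (hf.2 _ (by omega) (by omega)) (val_pow_pos hρ0 _)
      _ = O.valuation ρ ^ j := by
          rw [← pow_add]
          congr 1
          omega

/-- characteristic polynomials of small matrices -/
private theorem Sm.charpolyRev (hρ0 : ρ ≠ 0) {J : Type} [Fintype J] [DecidableEq J] {E : Matrix J J L}
    (hE : ∀ u v, O.valuation (E u v) < O.valuation ρ) : Sm O ρ N (E.charpolyRev : PowerSeries L) := by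
  have hv : ∀ u v, O.valuation (ρ⁻¹ * E u v) < 1 := by
    intro u v
    rw [map_mul, map_inv₀]
    have h1 : 0 < O.valuation ρ := zero_lt_iff.2 ((Valuation.ne_zero_iff _).2 hρ0)
    calc (O.valuation ρ)⁻¹ * O.valuation (E u v) < (O.valuation ρ)⁻¹ * O.valuation ρ :=
          mul_lt_mul_of_pos_left (hE u v) (zero_lt_iff.2 (inv_ne_zero h1.ne'))
      _ = 1 := inv_mul_cancel₀ h1.ne'
  have hmem : ∀ u v, ρ⁻¹ * E u v ∈ O := fun u v => (ValuationSubring.valuation_le_one_iff _ _).1 (hv u v).le
  obtain ⟨B, hB⟩ : ∃ B : Matrix J J O, B = fun u v => ⟨ρ⁻¹ * E u v, hmem u v⟩ := ⟨_, rfl⟩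
  have hBE : E = ρ • B.map (algebraMap O L) := by
    ext u v
    rw [Matrix.smul_apply, Matrix.map_apply, hB, smul_eq_mul]
    show E u v = ρ * (ρ⁻¹ * E u v)
    rw [mul_inv_cancel_left₀ hρ0]
  have hBres : B.map (IsLocalRing.residue O) = 0 := by
    ext u v
    rw [Matrix.map_apply, Matrix.zero_apply, IsLocalRing.residue_eq_zero_iff, hB,
      ValuationSubring.valuation_lt_one_iff]
    exact hv u v
  -- the coefficients of the reduced polynomial
  have hres : (B.charpolyRev).map (IsLocalRing.residue O) = 1 := by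
    rw [Matrix.charpolyRev, ← Polynomial.coe_mapRingHom, RingHom.map_det]
    have : (Polynomial.mapRingHom (IsLocalRing.residue O)).mapMatrix
        (1 - (Polynomial.X : O[X]) • B.map Polynomial.C) = 1 := by
      refine Matrix.ext fun u v => ?_
      have h1 : IsLocalRing.residue O (B u v) = 0 := by
        have := congrFun (congrFun hBres u) v
        rwa [Matrix.map_apply, Matrix.zero_apply] at this
      have h2 : Polynomial.mapRingHom (IsLocalRing.residue O) (Polynomial.C (B u v)) = 0 := by
        rw [Polynomial.coe_mapRingHom, Polynomial.map_C, h1, Polynomial.C_0]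
      rw [RingHom.mapMatrix_apply, Matrix.map_apply, Matrix.sub_apply, Matrix.smul_apply, smul_eq_mul,
        Matrix.map_apply, map_sub, map_mul, h2, mul_zero, sub_zero, Matrix.one_apply, Matrix.one_apply]
      split_ifs
      · exact map_one _
      · exact map_zero _
    rw [this, Matrix.det_one]
  have hcoef : ∀ j, 0 < j → O.valuation ((B.charpolyRev.coeff j : O) : L) < 1 := by
    intro j hj
    rw [← ValuationSubring.valuation_lt_one_iff, ← IsLocalRing.residue_eq_zero_iff, ← Polynomial.coeff_map, hres,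
      Polynomial.coeff_one, if_neg hj.ne']
  have hE2 : E.charpolyRev = ((B.charpolyRev).map (algebraMap O L)).comp (Polynomial.C ρ * Polynomial.X) := by
    have e1 : ((B.charpolyRev).map (algebraMap O L)).comp (Polynomial.C ρ * Polynomial.X) =
        ((Polynomial.compRingHom (Polynomial.C ρ * Polynomial.X)).comp (Polynomial.mapRingHom (algebraMap O L)))
          B.charpolyRev := rfl
    rw [e1, Matrix.charpolyRev, Matrix.charpolyRev, RingHom.map_det]
    congr 1
    refine Matrix.ext fun u v => ?_
    rw [hBE]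
    have h3 : ((Polynomial.compRingHom (Polynomial.C ρ * Polynomial.X)).comp (Polynomial.mapRingHom (algebraMap O L)))
        (Polynomial.X * Polynomial.C (B u v)) = Polynomial.C ρ * Polynomial.X * Polynomial.C (algebraMap O L (B u v)) := by
      rw [RingHom.comp_apply, Polynomial.coe_mapRingHom, Polynomial.map_mul, Polynomial.map_X, Polynomial.map_C,
        Polynomial.coe_compRingHom_apply, Polynomial.mul_comp, Polynomial.X_comp, Polynomial.C_comp]
    have h5 : (1 - (Polynomial.X : O[X]) • B.map Polynomial.C) u v =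
        (if u = v then (1 : O[X]) else 0) - Polynomial.X * Polynomial.C (B u v) := by
      rw [Matrix.sub_apply, Matrix.smul_apply, smul_eq_mul, Matrix.map_apply, Matrix.one_apply]
    have h6 : (1 - (Polynomial.X : L[X]) • (ρ • B.map (algebraMap O L)).map Polynomial.C) u v =
        (if u = v then (1 : L[X]) else 0) - Polynomial.C ρ * Polynomial.X * Polynomial.C (algebraMap O L (B u v)) := by
      rw [Matrix.sub_apply, Matrix.smul_apply, smul_eq_mul, Matrix.map_apply, Matrix.one_apply, Matrix.smul_apply,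
        smul_eq_mul, Matrix.map_apply, Polynomial.C_mul]
      ring
    rw [RingHom.mapMatrix_apply, Matrix.map_apply, h5, h6, map_sub, h3]
    have h4 : (if u = v then (1 : L[X]) else 0) = ((Polynomial.compRingHom (Polynomial.C ρ * Polynomial.X)).comp
        (Polynomial.mapRingHom (algebraMap O L))) (if u = v then (1 : O[X]) else 0) := by
      split_ifs
      · exact (map_one _).symm
      · exact (map_zero _).symm
    rw [h4]
  refine ⟨?_, fun j hj _ => ?_⟩
  · rw [Polynomial.coeff_coe, Polynomial.coeff_zero_eq_eval_zero, Matrix.eval_charpolyRev]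
  · rw [Polynomial.coeff_coe, hE2, Polynomial.comp_C_mul_X_coeff, Polynomial.coeff_map, map_mul, map_pow]
    calc O.valuation (algebraMap O L (B.charpolyRev.coeff j)) * O.valuation ρ ^ j < 1 * O.valuation ρ ^ j :=
          mul_lt_mul_of_pos_right (hcoef j hj) (val_pow_pos hρ0 _)
      _ = O.valuation ρ ^ j := one_mul _

/-! ### the logarithmic derivative -/

/-- `X u' / u` -/
private noncomputable def ld (u : (PowerSeries L)ˣ) : PowerSeries L :=
  PowerSeries.X * PowerSeries.derivative L (u : PowerSeries L) * ((u⁻¹ : (PowerSeries L)ˣ) : PowerSeries L)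

private theorem ld_mul (u v : (PowerSeries L)ˣ) : ld (u * v) = ld u + ld v := by
  unfold ld
  rw [Units.val_mul, Derivation.leibniz, mul_inv, Units.val_mul, smul_eq_mul, smul_eq_mul]
  have h1 := u.mul_inv
  have h2 := v.mul_inv
  linear_combination (PowerSeries.X * PowerSeries.derivative L (v : PowerSeries L) * ((v⁻¹ : (PowerSeries L)ˣ) : PowerSeries L)) * h1 +
    (PowerSeries.X * PowerSeries.derivative L (u : PowerSeries L) * ((u⁻¹ : (PowerSeries L)ˣ) : PowerSeries L)) * h2

/-- `X u' / u` as a homomorphism -/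
private noncomputable def ldh : (PowerSeries L)ˣ →* Multiplicative (PowerSeries L) where
  toFun u := Multiplicative.ofAdd (ld u)
  map_one' := by
    rw [← ofAdd_zero]
    congr 1
    unfold ld
    rw [Units.val_one]
    simp
  map_mul' u v := by
    rw [ld_mul]
    rfl

private theorem ld_eq {u : (PowerSeries L)ˣ} {h : PowerSeries L}
    (hu : PowerSeries.X * PowerSeries.derivative L (u : PowerSeries L) = h * (u : PowerSeries L)) : ld u = h := by
  unfold ld
  rw [hu, mul_assoc, u.mul_inv, mul_one]

private theorem ld_spec (u : (PowerSeries L)ˣ) :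
    PowerSeries.X * PowerSeries.derivative L (u : PowerSeries L) = ld u * (u : PowerSeries L) := by
  unfold ld
  rw [mul_assoc, u.inv_mul, mul_one]

private theorem ld_zpow (u : (PowerSeries L)ˣ) (n : ℤ) : ld (u ^ n) = n • ld u := by
  have h := map_zpow (ldh (L := L)) u n
  have h2 : Multiplicative.toAdd (ldh (u ^ n)) = n • Multiplicative.toAdd (ldh u) := by
    rw [h, toAdd_zpow]
  exact h2

private theorem ld_inv (u : (PowerSeries L)ˣ) : ld u⁻¹ = - ld u := by
  have h := ld_zpow u (-1)
  rwa [zpow_neg_one, neg_one_zsmul] at h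

private theorem ld_prod {I : Type} (S : Finset I) (u : I → (PowerSeries L)ˣ) :
    ld (∏ i ∈ S, u i) = ∑ i ∈ S, ld (u i) := by
  classical
  induction S using Finset.induction_on with
  | empty =>
    rw [prod_empty, sum_empty]
    unfold ld
    rw [Units.val_one]
    simp
  | insert a S ha ih => rw [prod_insert ha, sum_insert ha, ld_mul, ih]

/-- a series with constant coefficient one -/
private theorem exists_unit {f : PowerSeries L} (hf : PowerSeries.coeff 0 f = 1) :
    ∃ u : (PowerSeries L)ˣ, (u : PowerSeries L) = f := by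
  have : IsUnit f := by
    rw [PowerSeries.isUnit_iff_constantCoeff, ← PowerSeries.coeff_zero_eq_constantCoeff_apply, hf]
    exact isUnit_one
  exact this

private theorem ld_lin {s : ℕ} (hs : 0 < s) (b : L) {u : (PowerSeries L)ˣ}
    (hu : (u : PowerSeries L) = ((1 - Polynomial.C b * Polynomial.X ^ s : L[X]) : PowerSeries L)) :
    ld u = - PowerSeries.mk fun r => if r = 0 then 0 else if s ∣ r then (s : L) * b ^ (r / s) else 0 := by
  refine ld_eq ?_
  obtain ⟨m, hm⟩ : ∃ m : PowerSeries L, m = PowerSeries.mk fun r => if r = 0 then 0 else if s ∣ r then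
    (s : L) * b ^ (r / s) else 0 := ⟨_, rfl⟩
  have hu' : (u : PowerSeries L) = 1 - PowerSeries.C b * PowerSeries.X ^ s := by
    rw [hu, Polynomial.coe_sub, Polynomial.coe_one, Polynomial.coe_mul, Polynomial.coe_C, Polynomial.coe_pow,
      Polynomial.coe_X]
  have e : -m * (u : PowerSeries L) = PowerSeries.C b * (m * PowerSeries.X ^ s) - m := by
    rw [hu']
    ring
  rw [← hm, e]
  ext r
  rw [map_sub, PowerSeries.coeff_C_mul, PowerSeries.coeff_mul_X_pow', hm]
  simp only [PowerSeries.coeff_mk]
  cases r with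
  | zero =>
    rw [PowerSeries.coeff_zero_X_mul, if_neg (by omega), if_pos rfl, mul_zero, sub_zero]
  | succ r =>
    rw [PowerSeries.coeff_succ_X_mul, PowerSeries.coeff_derivative, hu', map_sub, PowerSeries.coeff_one,
      if_neg (Nat.succ_ne_zero r), PowerSeries.coeff_C_mul, PowerSeries.coeff_X_pow, zero_sub,
      if_neg (Nat.succ_ne_zero r)]
    rcases lt_trichotomy (r + 1) s with h1 | h1 | h1
    · have h2 : ¬ s ∣ r + 1 := fun h => absurd (Nat.le_of_dvd (by omega) h) (by omega)
      rw [if_neg h1.ne, if_neg (by omega), if_neg h2]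
      ring
    · rw [if_pos h1, if_pos h1.ge, if_pos (by omega), if_pos (by rw [h1]), h1,
        Nat.div_self hs, ← h1]
      push_cast
      ring
    · rw [if_neg h1.ne', if_pos h1.le, if_neg (by omega)]
      by_cases h2 : s ∣ r + 1
      · have h3 : s ∣ r + 1 - s := Nat.dvd_sub h2 (dvd_refl s)
        rw [if_pos h2, if_pos h3]
        obtain ⟨q, hq⟩ := h2
        have h4 : (r + 1) / s = q := by
          rw [hq]
          exact Nat.mul_div_cancel_left q hs
        have h5 : (r + 1 - s) / s = q - 1 := by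
          rw [hq, ← Nat.mul_sub_one]
          exact Nat.mul_div_cancel_left _ hs
        have h6 : q = (q - 1) + 1 := by
          rcases Nat.eq_zero_or_pos q with h7 | h7
          · subst h7
            omega
          · omega
        rw [h4, h5]
        nth_rewrite 2 [h6]
        rw [pow_succ]
        ring
      · have h3 : ¬ s ∣ r + 1 - s := fun h => h2 (by
          have := Nat.dvd_add h (dvd_refl s)
          rwa [Nat.sub_add_cancel h1.le] at this)
        rw [if_neg h2, if_neg h3]
        ring

/-- the group of the small units -/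
private def smU (O : ValuationSubring L) (N : ℕ) (hρ0 : ρ ≠ 0) : Subgroup (PowerSeries L)ˣ where
  carrier := {u | Sm O ρ N (u : PowerSeries L)}
  mul_mem' := by
    intro a b ha hb
    have := Sm.mul hρ0 ha hb
    rwa [← Units.val_mul] at this
  one_mem' := by
    show Sm O ρ N ((1 : (PowerSeries L)ˣ) : PowerSeries L)
    rw [Units.val_one]
    exact Sm.one hρ0
  inv_mem' := by
    intro a ha
    exact Sm.inv hρ0 ha a.mul_inv

/-- a small logarithmic derivative -/
private theorem Sm.of_ld [CharZero L] (hρ : O.valuation ρ ≤ 1) (hρ0 : ρ ≠ 0) {G : (PowerSeries L)ˣ}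
    (hG0 : PowerSeries.coeff 0 (G : PowerSeries L) = 1) (δ : ℕ → L)
    (hδ : ld G = - PowerSeries.mk fun r => if r = 0 then 0 else δ r)
    (hv : ∀ r, 0 < r → r ≤ N → O.valuation (δ r) < O.valuation ((N.factorial : ℕ) : L) * O.valuation ρ ^ N) :
    Sm O ρ N (G : PowerSeries L) := by
  have hint : ∀ n : ℕ, O.valuation (n : L) ≤ 1 := fun n => (ValuationSubring.valuation_le_one_iff _ _).2 (natCast_mem O n)
  have hfac : ∀ n : ℕ, 0 < O.valuation ((n.factorial : ℕ) : L) := fun n =>
    zero_lt_iff.2 ((Valuation.ne_zero_iff _).2 (Nat.cast_ne_zero.2 n.factorial_ne_zero))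
  obtain ⟨t, ht⟩ : ∃ t, t = O.valuation ((N.factorial : ℕ) : L) * O.valuation ρ ^ N := ⟨_, rfl⟩
  rw [← ht] at hv
  have ht0 : 0 < t := by
    rw [ht]
    exact mul_pos (hfac N) (val_pow_pos hρ0 N)
  have ht1 : t ≤ 1 := by
    rw [ht]
    exact mul_le_one' (hint _) (pow_le_one' hρ N)
  have key : ∀ j, 0 < j → j ≤ N → O.valuation ((j.factorial : L) * PowerSeries.coeff j (G : PowerSeries L)) < t := by
    intro j
    induction j using Nat.strong_induction_on with
    | _ j ih =>
      intro hj hjN
      have h1 := congrArg (PowerSeries.coeff j) (ld_spec G)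
      rw [hδ] at h1
      obtain ⟨i, rfl⟩ : ∃ i, j = i + 1 := ⟨j - 1, by omega⟩
      rw [PowerSeries.coeff_succ_X_mul, PowerSeries.coeff_derivative, neg_mul, map_neg, PowerSeries.coeff_mul] at h1
      have h2 : (((i + 1).factorial : ℕ) : L) * PowerSeries.coeff (i + 1) (G : PowerSeries L) =
          - ∑ p ∈ antidiagonal (i + 1), (i.factorial : L) * (PowerSeries.coeff p.1 (PowerSeries.mk fun r =>
            if r = 0 then 0 else δ r) * PowerSeries.coeff p.2 (G : PowerSeries L)) := by
        rw [← Finset.mul_sum, ← mul_neg, ← h1, Nat.factorial_succ]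
        push_cast
        ring
      rw [h2, Valuation.map_neg]
      refine Valuation.map_sum_lt _ ht0.ne' fun p hp => ?_
      rw [Finset.HasAntidiagonal.mem_antidiagonal] at hp
      rw [PowerSeries.coeff_mk]
      by_cases h3 : p.1 = 0
      · rw [if_pos h3, zero_mul, mul_zero, map_zero]
        exact ht0
      · rw [if_neg h3]
        have h4 : p.2 ≤ i := by omega
        obtain ⟨q, hq⟩ := Nat.factorial_dvd_factorial h4
        have h5 : O.valuation ((p.2.factorial : L) * PowerSeries.coeff p.2 (G : PowerSeries L)) ≤ 1 := by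
          rcases Nat.eq_zero_or_pos p.2 with h6 | h6
          · rw [h6, hG0, Nat.factorial_zero, Nat.cast_one, one_mul, map_one]
          · exact (ih p.2 (by omega) h6 (by omega)).le.trans ht1
        have h6 : (i.factorial : L) * (δ p.1 * PowerSeries.coeff p.2 (G : PowerSeries L)) =
            (q : L) * δ p.1 * ((p.2.factorial : L) * PowerSeries.coeff p.2 (G : PowerSeries L)) := by
          rw [hq]
          push_cast
          ring
        rw [h6, map_mul, map_mul]
        calc O.valuation (q : L) * O.valuation (δ p.1) *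
              O.valuation ((p.2.factorial : L) * PowerSeries.coeff p.2 (G : PowerSeries L)) ≤
              1 * O.valuation (δ p.1) * 1 := by
                gcongr
                exact hint q
          _ = O.valuation (δ p.1) := by rw [one_mul, mul_one]
          _ < t := hv _ (by omega) (by omega)
  refine ⟨hG0, fun j hj hjN => ?_⟩
  have h1 := key j hj hjN
  rw [map_mul, ht] at h1
  obtain ⟨q, hq⟩ := Nat.factorial_dvd_factorial hjN
  have h2 : O.valuation ((j.factorial : ℕ) : L) * O.valuation (PowerSeries.coeff j (G : PowerSeries L)) <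
      O.valuation ((j.factorial : ℕ) : L) * O.valuation ρ ^ j := by
    refine h1.trans_le ?_
    rw [hq, Nat.cast_mul, map_mul, mul_assoc]
    have h3 : O.valuation (q : L) * O.valuation ρ ^ N ≤ 1 * O.valuation ρ ^ j := by
      refine mul_le_mul' (hint q) (pow_le_pow_right_of_le_one' hρ hjN)
    rw [one_mul] at h3
    gcongr
  exact (mul_lt_mul_iff_right₀ (hfac j)).1 h2

private theorem coeff_zero_rev {J : Type} [Fintype J] [DecidableEq J] (A : Matrix J J L) :
    PowerSeries.coeff 0 (A.charpolyRev : PowerSeries L) = 1 := by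
  rw [Polynomial.coeff_coe, Polynomial.coeff_zero_eq_eval_zero, Matrix.eval_charpolyRev]

end

section

open scoped Polynomial

variable {L : Type} [Field L] (O : ValuationSubring L)

/-- WS-8d -/
theorem exists_quotient [CharZero L] [IsAlgClosed L] {ρ : L} (hρ : O.valuation ρ ≤ 1)
    (hρ0 : ρ ≠ 0) {J : Type} [Fintype J] [DecidableEq J] (A : Matrix J J L) {D N s : ℕ}
    (hs : 0 < s) (β : Fin D → L) {I : Type} [Fintype I] (ε : I → ℤ) (J' : I → Type)
    [∀ i, Fintype (J' i)] [∀ i, DecidableEq (J' i)] (E : ∀ i, Matrix (J' i) (J' i) L)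
    (hE : ∀ i u v, O.valuation (E i u v) < O.valuation ρ)
    (hT : ∀ r, 0 < r → r ≤ N → O.valuation ((if s ∣ r then (s : L) * ∑ i, β i ^ (r / s) else 0) -
      (A ^ r).trace - ∑ i, (ε i : L) * (E i ^ r).trace) <
        O.valuation ((N.factorial : ℕ) : L) * O.valuation ρ ^ N) :
    ∃ H : PowerSeries L, PowerSeries.coeff 0 H = 1 ∧ (∀ j, 0 < j → j ≤ N →
      O.valuation (PowerSeries.coeff j H) < O.valuation ρ ^ j) ∧
      ((∏ i, (1 - Polynomial.C (β i) * Polynomial.X ^ s) : L[X]) : PowerSeries L) = (A.charpolyRev : PowerSeries L) * H := by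
  classical
  obtain ⟨uA, huA⟩ := exists_unit (coeff_zero_rev A)
  have hex : ∀ i, ∃ u : (PowerSeries L)ˣ, (u : PowerSeries L) =
      ((1 - Polynomial.C (β i) * Polynomial.X ^ s : L[X]) : PowerSeries L) := by
    intro i
    refine exists_unit ?_
    rw [Polynomial.coeff_coe, Polynomial.coeff_sub, Polynomial.coeff_one_zero, Polynomial.coeff_C_mul,
      Polynomial.coeff_X_pow, if_neg hs.ne, mul_zero, sub_zero]
  choose uP huP using hex
  have hexE : ∀ i, ∃ u : (PowerSeries L)ˣ, (u : PowerSeries L) = ((E i).charpolyRev : PowerSeries L) :=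
    fun i => exists_unit (coeff_zero_rev (E i))
  choose uE huE using hexE
  obtain ⟨P, hP⟩ : ∃ P : (PowerSeries L)ˣ, P = ∏ i, uP i := ⟨_, rfl⟩
  obtain ⟨F, hF⟩ : ∃ F : (PowerSeries L)ˣ, F = ∏ i, uE i ^ ε i := ⟨_, rfl⟩
  obtain ⟨H, hH⟩ : ∃ H : (PowerSeries L)ˣ, H = uA⁻¹ * P := ⟨_, rfl⟩
  obtain ⟨G, hG⟩ : ∃ G : (PowerSeries L)ˣ, G = H * F⁻¹ := ⟨_, rfl⟩
  have hFs : F ∈ smU (ρ := ρ) O N hρ0 := by
    rw [hF]
    refine Subgroup.prod_mem _ fun i _ => Subgroup.zpow_mem _ ?_ _
    show Sm O ρ N (uE i : PowerSeries L)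
    rw [huE i]
    exact Sm.charpolyRev hρ0 (hE i)
  -- the constant coefficients
  obtain ⟨K, hK⟩ : ∃ K : Subgroup (PowerSeries L)ˣ, ∀ u, u ∈ K ↔ PowerSeries.coeff 0 (u : PowerSeries L) = 1 := by
    refine ⟨(Units.map ((PowerSeries.constantCoeff (R := L)) : PowerSeries L →* L)).ker, fun u => ?_⟩
    rw [MonoidHom.mem_ker, Units.ext_iff, PowerSeries.coeff_zero_eq_constantCoeff_apply]
    rfl
  have hPK : P ∈ K := by
    rw [hP]
    refine Subgroup.prod_mem _ fun i _ => ?_
    rw [hK, huP i, Polynomial.coeff_coe, Polynomial.coeff_sub, Polynomial.coeff_one_zero, Polynomial.coeff_C_mul,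
      Polynomial.coeff_X_pow, if_neg hs.ne, mul_zero, sub_zero]
  have hAK : uA ∈ K := by
    rw [hK, huA]
    exact coeff_zero_rev A
  have hHK : H ∈ K := by
    rw [hH]
    exact K.mul_mem (K.inv_mem hAK) hPK
  have hGK : G ∈ K := by
    rw [hG]
    exact K.mul_mem hHK (K.inv_mem ((hK F).2 hFs.1))
  -- the logarithmic derivatives
  have hlA : ∀ {J : Type} [Fintype J] [DecidableEq J] (A : Matrix J J L) {u : (PowerSeries L)ˣ}
      (_ : (u : PowerSeries L) = (A.charpolyRev : PowerSeries L)),
      ld u = - PowerSeries.mk fun r => if r = 0 then 0 else (A ^ r).trace := by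
    intro J _ _ A u hu
    refine ld_eq ?_
    rw [hu]
    exact logDeriv_charpolyRev A
  have hld : ld G = - PowerSeries.mk fun r => if r = 0 then 0 else
      ((if s ∣ r then (s : L) * ∑ i, β i ^ (r / s) else 0) -
      (A ^ r).trace - ∑ i, (ε i : L) * (E i ^ r).trace) := by
    have h1 : ld G = (- ld uA + ∑ i, ld (uP i)) + - ∑ i, ε i • ld (uE i) := by
      rw [hG, ld_mul, ld_inv, hH, ld_mul, ld_inv, hP, ld_prod, hF, ld_prod]
      simp only [ld_zpow]
    rw [h1, hlA A huA]
    simp only [fun i => ld_lin hs (β i) (huP i), fun i => hlA (E i) (huE i)]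
    ext r
    simp only [map_add, map_neg, map_sum, map_zsmul]
    simp only [PowerSeries.coeff_mk, zsmul_eq_mul]
    by_cases hr : r = 0
    · simp [hr]
    · simp only [if_neg hr]
      by_cases hsr : s ∣ r
      · simp only [if_pos hsr, Finset.mul_sum, Finset.sum_neg_distrib, mul_neg]
        ring
      · simp only [if_neg hsr, mul_neg, neg_zero, Finset.sum_const_zero, Finset.sum_neg_distrib]
        ring
  have hGs : Sm O ρ N (G : PowerSeries L) := Sm.of_ld hρ hρ0 ((hK G).1 hGK) _ hld hT
  have hHs : Sm O ρ N (H : PowerSeries L) := by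
    have h1 : H = G * F := by
      rw [hG, inv_mul_cancel_right]
    rw [h1, Units.val_mul]
    exact Sm.mul hρ0 hGs hFs
  refine ⟨(H : PowerSeries L), hHs.1, hHs.2, ?_⟩
  rw [← huA, ← Units.val_mul, hH, mul_inv_cancel_left, hP, Units.coe_prod]
  have h2 : ((∏ i, (1 - Polynomial.C (β i) * Polynomial.X ^ s) : L[X]) : PowerSeries L) =
      ∏ i, ((1 - Polynomial.C (β i) * Polynomial.X ^ s : L[X]) : PowerSeries L) := by
    rw [← Polynomial.coeToPowerSeries.ringHom_apply, map_prod]
    rfl
  rw [h2]
  exact Finset.prod_congr rfl fun i _ => (huP i).symm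

end

end Pool.Agent.Helper9.WS
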