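import Pool.Agent.Helper9.WS.Defs5
import Pool.Agent.Helper9.WS.LA
import Pool.Agent.Helper95.WS.Sm

/-!
# Ratios of characteristic polynomials (project WS, 32)
-/

open MvPolynomial Finset

namespace Pool.Agent.Helper9.WS

section

open scoped Polynomial

open Pool.Agent.Helper95.WS

variable {L : Type} [Field L] (O : ValuationSubring L)

private theorem coeff_zero_rev' {J : Type} [Fintype J] [DecidableEq J] (A : Matrix J J L) :
    PowerSeries.coeff 0 (A.charpolyRev : PowerSeries L) = 1 := by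
  rw [Polynomial.coeff_coe, Polynomial.coeff_zero_eq_eval_zero, Matrix.eval_charpolyRev]

private theorem exists_lin {s D : ℕ} (hs : 0 < s) (β : Fin D → L) : ∃ P : (PowerSeries L)ˣ,
    PowerSeries.coeff 0 (P : PowerSeries L) = 1 ∧
    (P : PowerSeries L) = ((∏ i, (1 - Polynomial.C (β i) * Polynomial.X ^ s) : L[X]) : PowerSeries L) ∧
    ld P = - PowerSeries.mk fun r => if r = 0 then 0 else if s ∣ r then (s : L) * ∑ i, β i ^ (r / s) else 0 := by
  have hc : ∀ i, PowerSeries.coeff 0 ((1 - Polynomial.C (β i) * Polynomial.X ^ s : L[X]) : PowerSeries L) = 1 := by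
    intro i
    rw [Polynomial.coeff_coe, Polynomial.coeff_sub, Polynomial.coeff_one_zero, Polynomial.coeff_C_mul,
      Polynomial.coeff_X_pow, if_neg hs.ne, mul_zero, sub_zero]
  have hex : ∀ i, ∃ u : (PowerSeries L)ˣ, (u : PowerSeries L) =
      ((1 - Polynomial.C (β i) * Polynomial.X ^ s : L[X]) : PowerSeries L) := fun i => exists_unit (hc i)
  choose uP huP using hex
  have h2 : ((∏ i, (1 - Polynomial.C (β i) * Polynomial.X ^ s) : L[X]) : PowerSeries L) =
      ∏ i, ((1 - Polynomial.C (β i) * Polynomial.X ^ s : L[X]) : PowerSeries L) := by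
    rw [← Polynomial.coeToPowerSeries.ringHom_apply, map_prod]
    rfl
  refine ⟨∏ i, uP i, ?_, ?_, ?_⟩
  · rw [Units.coe_prod, PowerSeries.coeff_zero_eq_constantCoeff_apply, map_prod]
    refine Finset.prod_eq_one fun i _ => ?_
    rw [huP i, ← PowerSeries.coeff_zero_eq_constantCoeff_apply]
    exact hc i
  · rw [h2, Units.coe_prod]
    exact Finset.prod_congr rfl fun i _ => huP i
  · rw [ld_prod]
    simp only [fun i => ld_lin hs (β i) (huP i)]
    ext r
    simp only [map_neg, map_sum, PowerSeries.coeff_mk, Finset.sum_neg_distrib]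
    split_ifs
    · simp
    · rw [Finset.mul_sum]
    · simp

theorem exists_quotient_two [CharZero L] [IsAlgClosed L] {ρ : L} (hρ : O.valuation ρ ≤ 1)
    (hρ0 : ρ ≠ 0) {J J' : Type} [Fintype J] [DecidableEq J] [Fintype J'] [DecidableEq J']
    (A : Matrix J J L) (A' : Matrix J' J' L) {D D' N s : ℕ} (hs : 0 < s) (β : Fin D → L)
    (c : Fin D' → L) {I : Type} [Fintype I] (ε : I → ℤ) (J₁ J₂ : I → Type)
    [∀ i, Fintype (J₁ i)] [∀ i, DecidableEq (J₁ i)] [∀ i, Fintype (J₂ i)]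
    [∀ i, DecidableEq (J₂ i)] (E : ∀ i, Matrix (J₁ i) (J₁ i) L) (E' : ∀ i, Matrix (J₂ i) (J₂ i) L)
    (hE : ∀ i, ∃ G : PowerSeries L, PowerSeries.coeff 0 G = 1 ∧ (∀ j, 0 < j → j ≤ N →
      O.valuation (PowerSeries.coeff j G) < O.valuation ρ ^ j) ∧
      ((E i).charpolyRev : PowerSeries L) = ((E' i).charpolyRev : PowerSeries L) * G)
    (hT : ∀ r, 0 < r → r ≤ N → O.valuation ((if s ∣ r then (s : L) * ∑ i, β i ^ (r / s) else 0) -
      (A ^ r).trace - ∑ i, (ε i : L) * (E i ^ r).trace) <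
        O.valuation ((N.factorial : ℕ) : L) * O.valuation ρ ^ N)
    (hT' : ∀ r, 0 < r → r ≤ N → O.valuation ((if s ∣ r then (s : L) * ∑ i, c i ^ (r / s) else 0) -
      (A' ^ r).trace - ∑ i, (ε i : L) * (E' i ^ r).trace) <
        O.valuation ((N.factorial : ℕ) : L) * O.valuation ρ ^ N) :
    ∃ H : PowerSeries L, PowerSeries.coeff 0 H = 1 ∧ (∀ j, 0 < j → j ≤ N →
      O.valuation (PowerSeries.coeff j H) < O.valuation ρ ^ j) ∧
      ((∏ i, (1 - Polynomial.C (β i) * Polynomial.X ^ s) : L[X]) : PowerSeries L) *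
        (A'.charpolyRev : PowerSeries L) = (A.charpolyRev : PowerSeries L) *
        ((∏ i, (1 - Polynomial.C (c i) * Polynomial.X ^ s) : L[X]) : PowerSeries L) * H := by
  classical
  obtain ⟨uA, huA⟩ := exists_unit (coeff_zero_rev' A)
  obtain ⟨uA', huA'⟩ := exists_unit (coeff_zero_rev' A')
  obtain ⟨P, hP0, hP, hPl⟩ := exists_lin hs β
  obtain ⟨Q, hQ0, hQ, hQl⟩ := exists_lin hs c
  have hexE : ∀ i, ∃ u : (PowerSeries L)ˣ, (u : PowerSeries L) = ((E i).charpolyRev : PowerSeries L) :=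
    fun i => exists_unit (coeff_zero_rev' (E i))
  choose uE huE using hexE
  have hexE' : ∀ i, ∃ u : (PowerSeries L)ˣ, (u : PowerSeries L) = ((E' i).charpolyRev : PowerSeries L) :=
    fun i => exists_unit (coeff_zero_rev' (E' i))
  choose uE' huE' using hexE'
  have hexG : ∀ i, ∃ u : (PowerSeries L)ˣ, Sm O ρ N (u : PowerSeries L) ∧ uE i = uE' i * u := by
    intro i
    obtain ⟨G, h0, h1, h2⟩ := hE i
    obtain ⟨u, hu⟩ := exists_unit h0
    refine ⟨u, ?_, ?_⟩
    · rw [hu]
      exact ⟨h0, h1⟩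
    · rw [Units.ext_iff, Units.val_mul, huE, huE', hu]
      exact h2
  choose uG huG hEG using hexG
  obtain ⟨F, hF⟩ : ∃ F : (PowerSeries L)ˣ, F = ∏ i, uG i ^ ε i := ⟨_, rfl⟩
  obtain ⟨H, hH⟩ : ∃ H : (PowerSeries L)ˣ, H = uA⁻¹ * P * uA' * Q⁻¹ := ⟨_, rfl⟩
  obtain ⟨G, hG⟩ : ∃ G : (PowerSeries L)ˣ, G = H * F⁻¹ := ⟨_, rfl⟩
  have hFs : F ∈ smU (ρ := ρ) O N hρ0 := by
    rw [hF]
    exact Subgroup.prod_mem _ fun i _ => Subgroup.zpow_mem _ (huG i) _
  -- the constant coefficients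
  obtain ⟨K, hK⟩ : ∃ K : Subgroup (PowerSeries L)ˣ, ∀ u, u ∈ K ↔ PowerSeries.coeff 0 (u : PowerSeries L) = 1 := by
    refine ⟨(Units.map ((PowerSeries.constantCoeff (R := L)) : PowerSeries L →* L)).ker, fun u => ?_⟩
    rw [MonoidHom.mem_ker, Units.ext_iff, PowerSeries.coeff_zero_eq_constantCoeff_apply]
    rfl
  have hAK : uA ∈ K := by
    rw [hK, huA]
    exact coeff_zero_rev' A
  have hAK' : uA' ∈ K := by
    rw [hK, huA']
    exact coeff_zero_rev' A'
  have hHK : H ∈ K := by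
    rw [hH]
    exact K.mul_mem (K.mul_mem (K.mul_mem (K.inv_mem hAK) ((hK P).2 hP0)) hAK') (K.inv_mem ((hK Q).2 hQ0))
  have hGK : G ∈ K := by
    rw [hG]
    exact K.mul_mem hHK (K.inv_mem ((hK F).2 hFs.1))
  -- the logarithmic derivatives
  have hlA : ∀ {J : Type} [Fintype J] [DecidableEq J] (A : Matrix J J L) {u : (PowerSeries L)ˣ}
      (_ : (u : PowerSeries L) = (A.charpolyRev : PowerSeries L)),
      ld u = - PowerSeries.mk fun r => if r = 0 then 0 else (A ^ r).trace := by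
    intro J _ _ A u hu
    refine ld_eq ?_
    rw [hu]
    exact logDeriv_charpolyRev A
  have hlG : ∀ i, ld (uG i) = ld (uE i) - ld (uE' i) := by
    intro i
    rw [hEG i, ld_mul, add_sub_cancel_left]
  have hld : ld G = - PowerSeries.mk fun r => if r = 0 then 0 else
      (((if s ∣ r then (s : L) * ∑ i, β i ^ (r / s) else 0) -
      (A ^ r).trace - ∑ i, (ε i : L) * (E i ^ r).trace) -
      ((if s ∣ r then (s : L) * ∑ i, c i ^ (r / s) else 0) -
      (A' ^ r).trace - ∑ i, (ε i : L) * (E' i ^ r).trace)) := by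
    have h1 : ld G = (- ld uA + ld P + ld uA' + - ld Q) + - ∑ i, ε i • (ld (uE i) - ld (uE' i)) := by
      rw [hG, ld_mul, ld_inv, hH, ld_mul, ld_inv, ld_mul, ld_mul, ld_inv, hF, ld_prod]
      simp only [ld_zpow, hlG]
    rw [h1, hlA A huA, hlA A' huA', hPl, hQl]
    simp only [fun i => hlA (E i) (huE i), fun i => hlA (E' i) (huE' i)]
    ext r
    simp only [map_add, map_neg, map_sum, map_zsmul, map_sub]
    simp only [PowerSeries.coeff_mk, zsmul_eq_mul]
    by_cases hr : r = 0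
    · simp [hr]
    · simp only [if_neg hr]
      have h2 : ∑ i, (ε i : L) * (-(E i ^ r).trace - -(E' i ^ r).trace) =
          ∑ i, (ε i : L) * (E' i ^ r).trace - ∑ i, (ε i : L) * (E i ^ r).trace := by
        rw [← Finset.sum_sub_distrib]
        exact Finset.sum_congr rfl fun i _ => by ring
      rw [h2]
      ring
  have hGs : Sm O ρ N (G : PowerSeries L) := by
    refine Sm.of_ld hρ hρ0 ((hK G).1 hGK) _ hld fun r h1 h2 => ?_
    exact lt_of_le_of_lt (Valuation.map_sub _ _ _) (max_lt (hT r h1 h2) (hT' r h1 h2))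
  have hHs : Sm O ρ N (H : PowerSeries L) := by
    have h1 : H = G * F := by
      rw [hG, inv_mul_cancel_right]
    rw [h1, Units.val_mul]
    exact Sm.mul hρ0 hGs hFs
  refine ⟨(H : PowerSeries L), hHs.1, hHs.2, ?_⟩
  rw [← huA, ← huA', ← hP, ← hQ, ← Units.val_mul, ← Units.val_mul, ← Units.val_mul, hH]
  congr 1
  rw [mul_right_comm uA Q, mul_comm (uA * _) Q, ← mul_assoc uA, ← mul_assoc uA, ← mul_assoc uA, mul_inv_cancel, one_mul,
    mul_comm Q, inv_mul_cancel_right]

theorem ratio_small (ϖ : O) (hϖ0 : ϖ ≠ 0) (hϖ : IsLocalRing.residue O ϖ = 0) {J J' : Type}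
    [Fintype J] [DecidableEq J] [Fintype J'] [DecidableEq J'] (w : J → ℕ) (B : Matrix J J O)
    (w' : J' → ℕ) (B' : Matrix J' J' O) (θ : ℕ) (hw : ∀ u, θ ≤ w u) (hw' : ∀ u, θ ≤ w' u)
    (hmid : (midBlock w θ (B.map (IsLocalRing.residue O))).charpolyRev =
      (midBlock w' θ (B'.map (IsLocalRing.residue O))).charpolyRev) :
    ∃ G : PowerSeries L, PowerSeries.coeff 0 G = 1 ∧ (∀ j, 0 < j →
      O.valuation (PowerSeries.coeff j G) < O.valuation (ϖ : L) ^ (θ * j)) ∧
      ((Matrix.charpolyRev (fun u v => (ϖ : L) ^ w u * (B u v : L)) : L[X]) : PowerSeries L) =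
        ((Matrix.charpolyRev (fun u v => (ϖ : L) ^ w' u * (B' u v : L)) : L[X]) :
          PowerSeries L) * G := by
  classical
  obtain ⟨ρ, hρ⟩ : ∃ ρ : L, ρ = (ϖ : L) ^ θ := ⟨_, rfl⟩
  have hϖ0' : (ϖ : L) ≠ 0 := by simpa using hϖ0
  have hρ0 : ρ ≠ 0 := by
    rw [hρ]
    exact pow_ne_zero _ hϖ0'
  -- one matrix
  have key : ∀ {J : Type} [Fintype J] [DecidableEq J] (w : J → ℕ) (B : Matrix J J O) (_ : ∀ u, θ ≤ w u),
      ∃ f : O[X], f.coeff 0 = 1 ∧ f.map (IsLocalRing.residue O) =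
        (midBlock w θ (B.map (IsLocalRing.residue O))).charpolyRev ∧
        (Matrix.charpolyRev (fun u v => (ϖ : L) ^ w u * (B u v : L)) : L[X]) =
          (f.map (algebraMap O L)).comp (Polynomial.C ρ * Polynomial.X) := by
    intro J _ _ w B hw
    obtain ⟨B₁, hB₁⟩ : ∃ B₁ : Matrix J J O, B₁ = fun u v => ϖ ^ (w u - θ) * B u v := ⟨_, rfl⟩
    refine ⟨B₁.charpolyRev, ?_, ?_, ?_⟩
    · rw [Polynomial.coeff_zero_eq_eval_zero, Matrix.eval_charpolyRev]
    · have h1 := map_residue_det_scaled w B ϖ hϖ θ (fun u v _ h => absurd h (not_lt.2 (hw v)))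
      have h2 : (scaled w B ϖ θ).det = B₁.charpolyRev := by
        rw [Matrix.charpolyRev]
        congr 1
        refine Matrix.ext fun u v => ?_
        have h3 : ¬ w u < θ := not_lt.2 (hw u)
        rw [Matrix.sub_apply, Matrix.smul_apply, Matrix.map_apply, Matrix.one_apply, smul_eq_mul, hB₁]
        unfold scaled
        rw [if_neg h3, if_neg h3, one_mul]
      have hemp : IsEmpty {u // w u < θ} := ⟨fun u => absurd u.2 (not_lt.2 (hw u.1))⟩
      have hlow : low w θ = ∅ := by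
        unfold low
        exact Finset.filter_eq_empty_iff.2 fun u _ => not_lt.2 (hw u)
      rw [h2, hlow, Finset.card_empty, pow_zero, mul_one, Matrix.det_isEmpty, map_one, one_mul] at h1
      exact h1
    · have h4 : (fun u v => (ϖ : L) ^ w u * (B u v : L)) = ρ • B₁.map (algebraMap O L) := by
        funext u v
        rw [Matrix.smul_apply, Matrix.map_apply, hB₁, smul_eq_mul, hρ]
        show (ϖ : L) ^ w u * (B u v : L) = (ϖ : L) ^ θ * ((ϖ : L) ^ (w u - θ) * (B u v : L))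
        rw [← mul_assoc, ← pow_add, Nat.add_sub_cancel' (hw u)]
      rw [h4]
      exact rev_smul B₁ ρ
  obtain ⟨f₁, hf₁, hr₁, he₁⟩ := key w B hw
  obtain ⟨f₂, hf₂, hr₂, he₂⟩ := key w' B' hw'
  have hu₂ : IsUnit (f₂ : PowerSeries O) := by
    rw [PowerSeries.isUnit_iff_constantCoeff, ← PowerSeries.coeff_zero_eq_constantCoeff_apply, Polynomial.coeff_coe, hf₂]
    exact isUnit_one
  obtain ⟨u, hu⟩ := hu₂
  obtain ⟨G₀, hG₀⟩ : ∃ G₀ : PowerSeries O, G₀ = (f₁ : PowerSeries O) * ((u⁻¹ : (PowerSeries O)ˣ) : PowerSeries O) := ⟨_, rfl⟩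
  have hG₀' : (f₁ : PowerSeries O) = (f₂ : PowerSeries O) * G₀ := by
    rw [hG₀, ← hu, mul_left_comm, u.mul_inv, mul_one]
  have hGr : PowerSeries.map (IsLocalRing.residue O) G₀ = 1 := by
    have h1 := congrArg (PowerSeries.map (IsLocalRing.residue O)) hG₀'
    rw [map_mul, ← Polynomial.polynomial_map_coe, ← Polynomial.polynomial_map_coe, hr₁, hr₂, hmid] at h1
    have h2 : IsUnit (((midBlock w' θ (B'.map (IsLocalRing.residue O))).charpolyRev : (IsLocalRing.ResidueField O)[X]) :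
        PowerSeries (IsLocalRing.ResidueField O)) := by
      rw [← hr₂, Polynomial.polynomial_map_coe]
      exact (hu ▸ u.isUnit : IsUnit (f₂ : PowerSeries O)).map _
    exact (h2.mul_left_cancel (by rw [mul_one]; exact h1)).symm
  have hG0 : PowerSeries.coeff 0 G₀ = 1 := by
    have h1 := congrArg (PowerSeries.coeff 0) hG₀'
    rw [Polynomial.coeff_coe, hf₁, PowerSeries.coeff_zero_eq_constantCoeff_apply, map_mul,
      ← PowerSeries.coeff_zero_eq_constantCoeff_apply, ← PowerSeries.coeff_zero_eq_constantCoeff_apply, Polynomial.coeff_coe,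
      hf₂, one_mul] at h1
    exact h1.symm
  have hres : ∀ f : O[X], (PowerSeries.rescale ρ) (PowerSeries.map (algebraMap O L) (f : PowerSeries O)) =
      (((f.map (algebraMap O L)).comp (Polynomial.C ρ * Polynomial.X) : L[X]) : PowerSeries L) := by
    intro f
    ext j
    rw [PowerSeries.coeff_rescale, PowerSeries.coeff_map, Polynomial.coeff_coe, Polynomial.coeff_coe,
      Polynomial.comp_C_mul_X_coeff, Polynomial.coeff_map, mul_comm]
  refine ⟨(PowerSeries.rescale ρ) (PowerSeries.map (algebraMap O L) G₀), ?_, fun j hj => ?_, ?_⟩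
  · rw [PowerSeries.coeff_rescale, PowerSeries.coeff_map, hG0, map_one, pow_zero, one_mul]
  · rw [PowerSeries.coeff_rescale, PowerSeries.coeff_map, map_mul, map_pow, pow_mul, ← map_pow O.valuation (ϖ : L) θ, ← hρ]
    have h1 : O.valuation (algebraMap O L (PowerSeries.coeff j G₀)) < 1 := by
      have h2 : IsLocalRing.residue O (PowerSeries.coeff j G₀) = 0 := by
        have h3 := congrArg (PowerSeries.coeff j) hGr
        rw [PowerSeries.coeff_map, PowerSeries.coeff_one, if_neg hj.ne'] at h3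
        exact h3
      rw [IsLocalRing.residue_eq_zero_iff, ValuationSubring.valuation_lt_one_iff] at h2
      exact h2
    calc O.valuation ρ ^ j * O.valuation (algebraMap O L (PowerSeries.coeff j G₀)) < O.valuation ρ ^ j * 1 :=
          mul_lt_mul_of_pos_left h1 (val_pow_pos hρ0 _)
      _ = O.valuation ρ ^ j := mul_one _
  · rw [he₁, he₂, ← hres, ← hres, ← map_mul, ← map_mul, ← hG₀']

end

end Pool.Agent.Helper9.WS
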