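import Mathlib

/-!
# Logarithmic derivatives of characteristic polynomials (project WS, 8c)
-/

open Finset

namespace Pool.Agent.Helper9.WS

section

open scoped Polynomial

/-- Jacobi's formula for `1 - X A`, over any commutative ring -/
private theorem logDeriv_aux {R : Type} [CommRing R] {J : Type} [Fintype J] [DecidableEq J]
    (A : Matrix J J R) : PowerSeries.X * PowerSeries.derivative R (A.charpolyRev : PowerSeries R) =
      - (PowerSeries.mk fun r => if r = 0 then 0 else (A ^ r).trace) *
        (A.charpolyRev : PowerSeries R) := by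
  -- the matrices over the power series
  obtain ⟨x, hx⟩ : ∃ x : PowerSeries R, x = PowerSeries.X := ⟨_, rfl⟩
  obtain ⟨A', hA'⟩ : ∃ A' : Matrix J J (PowerSeries R), A' = A.map (PowerSeries.C (R := R)) := ⟨_, rfl⟩
  obtain ⟨G, hG⟩ : ∃ G : Matrix J J (PowerSeries R), G = Matrix.of fun i j => PowerSeries.mk fun r => (A ^ r) i j :=
    ⟨_, rfl⟩
  obtain ⟨K, hK⟩ : ∃ K : Matrix J J (PowerSeries R), K = 1 - x • A' := ⟨_, rfl⟩
  have hAG : ∀ i j, (A' * G) i j = PowerSeries.mk fun r => (A ^ (r + 1)) i j := by
    intro i j
    rw [Matrix.mul_apply]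
    ext r
    rw [map_sum, PowerSeries.coeff_mk, pow_succ', Matrix.mul_apply]
    refine Finset.sum_congr rfl fun k _ => ?_
    rw [hA', hG, Matrix.map_apply, Matrix.of_apply, PowerSeries.coeff_C_mul, PowerSeries.coeff_mk]
  have hKG : K * G = 1 := by
    rw [hK, sub_mul, one_mul, Matrix.smul_mul]
    refine Matrix.ext fun i j => ?_
    rw [Matrix.sub_apply, Matrix.smul_apply, hAG, smul_eq_mul, hx]
    ext r
    rw [map_sub, hG, Matrix.of_apply, PowerSeries.coeff_mk]
    cases r with
    | zero =>
      rw [PowerSeries.coeff_zero_X_mul, sub_zero, pow_zero, Matrix.one_apply, Matrix.one_apply]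
      split_ifs <;> simp
    | succ r =>
      rw [PowerSeries.coeff_succ_X_mul, PowerSeries.coeff_mk, sub_self, Matrix.one_apply]
      split_ifs
      · rw [PowerSeries.coeff_one, if_neg (Nat.succ_ne_zero r)]
      · simp
  obtain ⟨M, hM⟩ : ∃ M : Matrix J J (PowerSeries R), M = -(x • (G * A')) := ⟨_, rfl⟩
  have hKM : K * M = -(x • A') := by
    rw [hM, Matrix.mul_neg, Matrix.mul_smul, ← Matrix.mul_assoc, hKG, Matrix.one_mul]
  -- the substitution `X ↦ x + x T`
  obtain ⟨q, hq⟩ : ∃ q : (PowerSeries R)[X], q = Polynomial.C x + Polynomial.C x * Polynomial.X := ⟨_, rfl⟩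
  obtain ⟨φ, hφ⟩ : ∃ φ : R[X] →+* (PowerSeries R)[X],
      φ = (Polynomial.compRingHom q).comp (Polynomial.mapRingHom (PowerSeries.C (R := R))) := ⟨_, rfl⟩
  have hφC : ∀ r : R, φ (Polynomial.C r) = Polynomial.C (PowerSeries.C r) := by
    intro r
    rw [hφ, RingHom.comp_apply, Polynomial.coe_mapRingHom, Polynomial.map_C, Polynomial.coe_compRingHom_apply,
      Polynomial.C_comp]
  have hφX : φ Polynomial.X = q := by
    rw [hφ, RingHom.comp_apply, Polynomial.coe_mapRingHom, Polynomial.map_X, Polynomial.coe_compRingHom_apply,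
      Polynomial.X_comp]
  have hdet : φ A.charpolyRev = Polynomial.C K.det *
      Matrix.det (1 + (Polynomial.X : (PowerSeries R)[X]) • M.map Polynomial.C) := by
    have e1 : Polynomial.C K.det = Matrix.det (K.map (Polynomial.C : PowerSeries R → _)) := by
      rw [RingHom.map_det]
      rfl
    rw [e1, ← Matrix.det_mul, Matrix.charpolyRev, RingHom.map_det]
    congr 1
    have e2 : (K.map (Polynomial.C : PowerSeries R → _)) * (M.map (Polynomial.C : PowerSeries R → _)) =
        (-(x • A')).map (Polynomial.C : PowerSeries R → _) := by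
      rw [← hKM, Matrix.map_mul]
    rw [mul_add, mul_one, Matrix.mul_smul, e2, hK]
    refine Matrix.ext fun i j => ?_
    simp only [RingHom.mapMatrix_apply, Matrix.map_apply, Matrix.sub_apply, Matrix.add_apply, Matrix.smul_apply,
      Matrix.neg_apply, smul_eq_mul, map_sub, map_mul, map_neg, hφX, hφC, hA', hq, Matrix.one_apply]
    split_ifs <;> simp <;> ring
  have hder : (Polynomial.derivative (φ A.charpolyRev)).eval 0 =
      x * PowerSeries.derivative R (A.charpolyRev : PowerSeries R) := by
    rw [hφ, RingHom.comp_apply, Polynomial.coe_mapRingHom, Polynomial.coe_compRingHom_apply,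
      Polynomial.derivative_comp, Polynomial.eval_mul, Polynomial.eval_comp, Polynomial.derivative_map]
    have e1 : Polynomial.eval 0 (Polynomial.derivative q) = x := by
      rw [hq]
      simp
    have e2 : Polynomial.eval 0 q = x := by
      rw [hq]
      simp
    rw [e1, e2, Polynomial.eval_map, hx, Polynomial.eval₂_C_X_eq_coe, PowerSeries.derivative_coe]
  have hKdet : K.det = (A.charpolyRev : PowerSeries R) := by
    have e1 : (A.charpolyRev : PowerSeries R) = Polynomial.coeToPowerSeries.ringHom A.charpolyRev := rfl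
    rw [e1, Matrix.charpolyRev, RingHom.map_det]
    congr 1
    rw [hK, hA', hx]
    refine Matrix.ext fun i j => ?_
    simp only [RingHom.mapMatrix_apply, Matrix.map_apply, Matrix.sub_apply, Matrix.smul_apply, smul_eq_mul, map_sub,
      map_mul, Matrix.one_apply, Polynomial.coeToPowerSeries.ringHom_apply, Polynomial.coe_X, Polynomial.coe_C]
    split_ifs <;> simp
  have htr : M.trace = - (PowerSeries.mk fun r => if r = 0 then 0 else (A ^ r).trace) := by
    rw [hM, Matrix.trace_neg, Matrix.trace_smul, Matrix.trace_mul_comm, smul_eq_mul]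
    congr 1
    rw [Matrix.trace]
    simp only [Matrix.diag_apply, hAG]
    rw [hx]
    ext r
    cases r with
    | zero => simp
    | succ r =>
      rw [PowerSeries.coeff_succ_X_mul, map_sum, PowerSeries.coeff_mk, if_neg (Nat.succ_ne_zero r), Matrix.trace]
      refine Finset.sum_congr rfl fun k _ => ?_
      rw [PowerSeries.coeff_mk, Matrix.diag_apply]
  rw [← hx, ← hder, hdet, Polynomial.derivative_C_mul, Polynomial.eval_C_mul, Matrix.derivative_det_one_add_X_smul,
    htr, hKdet]
  ring

variable {L : Type} [Field L]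

/-- WS-8c: logarithmic derivatives of characteristic polynomials -/
theorem logDeriv_charpolyRev [CharZero L] [IsAlgClosed L] {J : Type} [Fintype J] [DecidableEq J]
    (A : Matrix J J L) : PowerSeries.X * PowerSeries.derivative L (A.charpolyRev : PowerSeries L) =
      - (PowerSeries.mk fun r => if r = 0 then 0 else (A ^ r).trace) *
        (A.charpolyRev : PowerSeries L) :=
  logDeriv_aux A

end

end Pool.Agent.Helper9.WS
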